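import Pool.Agent.Helper73.TP.Link
import Pool.Agent.Helper13.FS.StageI
import Pool.Agent.Helper5.FS.Wrd2

/-!
# Project FS (MP_75608d_al), final step: `S_FR`, `S_HGA`, `S_HGB` and the sum over the start tuples

`s_fr`, `s_hga`, `s_hgb` prove the goals of `Helper1.TP.Goals`; `hg_of` turns the bound for every start
tuple into the hypothesis `hg` of `Helper13.FS.stage_worldG`.
-/

set_option autoImplicit false
set_option linter.unusedSectionVars false

namespace Pool.Agent.Helper73.TP

open Finset Pool.Agent.Helper35.MP Pool.Agent.Helper13.FS Pool.Agent.Helper1.TP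
open Pool.Agent.Helper4.FS (World Lt Stp prog Uses ed)

theorem s_fr : S_FR := fun _q _n N _s c B g a x y hx h => fresh_of_unc y a g N c B x hx h

variable {q n s N : ℕ}

theorem extW_coe (A : Fin N → Equiv.Perm (Fin n)) : (fun j : Fin N => extW A j) = A := by
  funext j
  unfold extW
  rw [dif_pos j.2]

theorem extG_coe (g : Fin N → Option (Lt q)) : (fun j : Fin N => extG g j) = g := by
  funext j
  unfold extG
  rw [dif_pos j.2]

/-- the product of the blocks is the position after `2 N` half steps -/
theorem bw_hp2 (A : Fin N → Equiv.Perm (Fin n)) (g : Fin N → Option (Lt q)) (y : World q n)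
    (p : Fin n) : bw N A (fun j => (gl y).act (g j)) p = hp y (extW A) (extG g) (2 * N) p := by
  have h := pos_bw (extW A) (extG g) y N p
  rw [extW_coe] at h
  unfold hp
  rw [h]
  congr 2
  funext j
  rw [← congrFun (extG_coe g) j]

/-- equality of the block products on a tuple is `Closed` -/
theorem closed_iff2 (A A' : Fin N → Equiv.Perm (Fin n)) (g : Fin N → Option (Lt q))
    (y : World q n) (x : Fin s → Fin n) :
    (∀ l, bw N A (fun j => (gl y).act (g j)) (x l) = bw N A' (fun j => (gl y).act (g j)) (x l)) ↔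
      Closed y (extW A) (extW A') (extG g) N x := by
  unfold Closed
  simp only [bw_hp2]

theorem card_world' : Fintype.card (World q n) = n.factorial ^ q := by
  rw [Fintype.card_fun, Fintype.card_perm, Fintype.card_fin, Fintype.card_fin]

theorem nat_card_eq (P : World q n → Prop) [DecidablePred P] :
    (Nat.card {y : World q n // P y} : ℝ) = ∑ y, if P y then (1 : ℝ) else 0 := by
  rw [Nat.card_eq_fintype_card, Fintype.card_subtype, sum_boole]

theorem nat_card_le_world (P : World q n → Prop) :
    (Nat.card {y : World q n // P y} : ℝ) ≤ (n.factorial : ℝ) ^ q := by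
  classical
  rw [Nat.card_eq_fintype_card]
  have h := Fintype.card_subtype_le P
  rw [card_world'] at h
  exact_mod_cast h

theorem nat_card_or (P Q R : World q n → Prop) (h : ∀ y, P y → Q y ∨ R y) :
    (Nat.card {y : World q n // P y} : ℝ) ≤
      Nat.card {y : World q n // Q y} + Nat.card {y : World q n // R y} := by
  classical
  rw [nat_card_eq, nat_card_eq, nat_card_eq, ← sum_add_distrib]
  apply sum_le_sum
  intro y _
  have h1 := h y
  by_cases hP : P y
  · rcases h1 hP with h2 | h2
    · rw [if_pos hP, if_pos h2]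
      split_ifs <;> norm_num
    · rw [if_pos hP, if_pos h2]
      split_ifs <;> norm_num
  · rw [if_neg hP]
    split_ifs <;> norm_num

theorem sum_prod_one2 (μ : Equiv.Perm (Fin n) → ℝ) (h : ∑ p, μ p = 1) :
    ∑ A : Fin N → Equiv.Perm (Fin n), ∑ B : Fin N → Equiv.Perm (Fin n),
      (∏ j, μ (A j)) * (∏ j, μ (B j)) = 1 := by
  rw [← sum_mul_sum, ← Fintype.prod_sum fun (_ : Fin N) p => μ p, prod_eq_one fun j _ => h, one_mul]

open Classical in
/-- the goal `S_HGA` -/
theorem s_hga {C : ℝ} (hfcl : S_FCL C) (hspa : S_SPA) : S_HGA C := by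
  intro q n N s b c B P J N0 μ ρ0 g x hx hμ hμ1 hb hbs hρ hρ1 hN hn hP hN0 hnum
  have hw0 : ∀ A : Fin N → Equiv.Perm (Fin n), 0 ≤ ∏ j, μ (A j) :=
    fun A => prod_nonneg fun j _ => hμ _
  obtain ⟨E, hE⟩ : ∃ E : ℝ, E = 4 ^ s * (C * (N : ℝ) ^ 3 / n) ^ (J / 3) * (n.factorial : ℝ) ^ q :=
    ⟨_, rfl⟩
  -- `ρ0` is nonnegative
  have hbn : b ≤ n := by
    have h1 : s ≤ n := by
      have := Fintype.card_le_of_injective x hx
      rwa [Fintype.card_fin, Fintype.card_fin] at this
    omega
  have hρ0 : 0 ≤ ρ0 := by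
    refine le_trans ?_ (hρ (Fin.castLEEmb hbn) (Fin.castLEEmb hbn))
    apply sum_nonneg
    intro A _
    apply sum_nonneg
    intro B _
    split_ifs
    · exact mul_nonneg (hμ _) (hμ _)
    · exact le_rfl
  have hpair : ∀ A B' : Fin N → Equiv.Perm (Fin n),
      (Nat.card {y : World q n // Closed y (extW A) (extW B') (extG g) N x ∧
        Unc y (extW A) (extG g) N c B x ∧ Unc y (extW B') (extG g) N c B x} : ℝ) ≤
      E + ∑ y : World q n,
        (if 8 * nsplit y (extW A) (extW B') (extG g) N x ≤ 3 * (s * nl (extG g) N) then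
          (1 : ℝ) else 0) := by
    intro A B'
    rw [← nat_card_eq]
    have h1 := hfcl q n N s (c * nl (extG g) N + s * B) P J (extG g) (extW A) (extW B') x hx hP hN
      hn
    rw [← hE] at h1
    refine le_trans (nat_card_or _ (fun y => Closed y (extW A) (extW B') (extG g) N x ∧
      Fresh y (extW A) (extG g) N (c * nl (extG g) N + s * B) x ∧
      Fresh y (extW B') (extG g) N (c * nl (extG g) N + s * B) x ∧
      3 * (c * nl (extG g) N + s * B) + s * P + J * nl (extG g) N <
        nsplit y (extW A) (extW B') (extG g) N x) _ ?_) (add_le_add_left h1 _)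
    rintro y ⟨h2, h3, h4⟩
    by_cases h5 : 8 * nsplit y (extW A) (extW B') (extG g) N x ≤ 3 * (s * nl (extG g) N)
    · exact Or.inr h5
    · left
      refine ⟨h2, fresh_of_unc _ _ _ _ _ _ _ hx h3, fresh_of_unc _ _ _ _ _ _ _ hx h4, ?_⟩
      omega
  calc ∑ A : Fin N → Equiv.Perm (Fin n), ∑ B' : Fin N → Equiv.Perm (Fin n),
        (∏ j, μ (A j)) * (∏ j, μ (B' j)) *
        (Nat.card {y : World q n // Closed y (extW A) (extW B') (extG g) N x ∧
        Unc y (extW A) (extG g) N c B x ∧ Unc y (extW B') (extG g) N c B x} : ℝ) ≤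
      ∑ A : Fin N → Equiv.Perm (Fin n), ∑ B' : Fin N → Equiv.Perm (Fin n),
        (∏ j, μ (A j)) * (∏ j, μ (B' j)) * (E + ∑ y : World q n,
        (if 8 * nsplit y (extW A) (extW B') (extG g) N x ≤ 3 * (s * nl (extG g) N) then
          (1 : ℝ) else 0)) := by
        apply sum_le_sum
        intro A _
        apply sum_le_sum
        intro B' _
        exact mul_le_mul_of_nonneg_left (hpair A B') (mul_nonneg (hw0 A) (hw0 B'))
    _ = E + ∑ y : World q n, ∑ A : Fin N → Equiv.Perm (Fin n),
          ∑ B' : Fin N → Equiv.Perm (Fin n),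
          (if 8 * nsplit y (extW A) (extW B') (extG g) N x ≤ 3 * (s * nl (extG g) N) then
            (∏ j, μ (A j)) * (∏ j, μ (B' j)) else 0) := by
        simp only [mul_add, sum_add_distrib, ← sum_mul]
        rw [sum_prod_one2 μ hμ1, one_mul]
        congr 1
        simp only [mul_sum]
        rw [sum_congr rfl fun A _ => sum_comm, sum_comm]
        apply sum_congr rfl
        intro y _
        apply sum_congr rfl
        intro A _
        apply sum_congr rfl
        intro B' _
        split_ifs
        · rw [mul_one]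
        · rw [mul_zero]
    _ ≤ E + ∑ _y : World q n, 2 ^ N * (2 ^ s * ρ0) ^ (N0 / 2) := by
        apply add_le_add_right
        apply sum_le_sum
        intro y _
        refine (hspa q n N s b μ ρ0 g x y hx hμ hμ1 hb hbs hρ hρ1).trans ?_
        apply mul_le_mul_of_nonneg_left _ (by positivity)
        exact pow_le_pow_of_le_one (by positivity) hρ1 (Nat.div_le_div_right hN0)
    _ = _ := by
        rw [sum_const, card_univ, card_world', nsmul_eq_mul, hE]
        push_cast
        ring

open Classical in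
/-- the goal `S_HGB` -/
theorem s_hgb {C : ℝ} (hfcl : S_FCL C) (hspb : S_SPB) (hwrd : S_WRD) : S_HGB C := by
  intro q n N s c B P J N0 f D K1 R μ p1 g x hx hμ hμ1 hp1 hN hn hP hN0 hK1 hR
  have hw0 : ∀ A : Fin N → Equiv.Perm (Fin n), 0 ≤ ∏ j, μ (A j) :=
    fun A => prod_nonneg fun j _ => hμ _
  obtain ⟨E, hE⟩ : ∃ E : ℝ, E = 4 ^ s * (C * (N : ℝ) ^ 3 / n) ^ (J / 3) * (n.factorial : ℝ) ^ q :=
    ⟨_, rfl⟩
  obtain ⟨S, hS⟩ : ∃ S : ℝ, S = ((s * nl (extG g) N).choose R : ℝ) *
      ((f : ℝ) / ((n : ℝ) - s * N)) ^ R * (n.factorial : ℝ) ^ q := ⟨_, rfl⟩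
  have hsN : s * N < n := by
    have h1 : 4 * s * N = 4 * (s * N) := by ring
    omega
  have hsN' : (0 : ℝ) < (n : ℝ) - s * N := by
    have : ((s * N : ℕ) : ℝ) < n := by exact_mod_cast hsN
    push_cast at this
    linarith
  have hS0 : 0 ≤ S := by
    rw [hS]
    positivity
  have hpair : ∀ A B' : Fin N → Equiv.Perm (Fin n),
      (Nat.card {y : World q n // Closed y (extW A) (extW B') (extG g) N x ∧
        Unc y (extW A) (extG g) N c B x ∧ Unc y (extW B') (extG g) N c B x} : ℝ) ≤
      E + S + (if D < (univ.filter fun v => f < agr (A v) (B' v)).card then 1 else 0) *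
        (n.factorial : ℝ) ^ q := by
    intro A B'
    have h1 := hfcl q n N s (c * nl (extG g) N + s * B) P J (extG g) (extW A) (extW B') x hx hP hN
      hn
    rw [← hE] at h1
    have h2 : (Nat.card {y : World q n // Closed y (extW A) (extW B') (extG g) N x ∧
        Unc y (extW A) (extG g) N c B x ∧ Unc y (extW B') (extG g) N c B x} : ℝ) ≤ E +
        (Nat.card {y : World q n // Fresh y (extW A) (extG g) N (c * nl (extG g) N + s * B) x ∧
          nsplit y (extW A) (extW B') (extG g) N x ≤ K1} : ℝ) := by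
      refine le_trans (nat_card_or _ (fun y => Closed y (extW A) (extW B') (extG g) N x ∧
        Fresh y (extW A) (extG g) N (c * nl (extG g) N + s * B) x ∧
        Fresh y (extW B') (extG g) N (c * nl (extG g) N + s * B) x ∧
        3 * (c * nl (extG g) N + s * B) + s * P + J * nl (extG g) N <
          nsplit y (extW A) (extW B') (extG g) N x) _ ?_) (add_le_add_left h1 _)
      rintro y ⟨h2, h3, h4⟩
      by_cases h5 : nsplit y (extW A) (extW B') (extG g) N x ≤ K1
      · exact Or.inr ⟨fresh_of_unc _ _ _ _ _ _ _ hx h3, h5⟩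
      · left
        refine ⟨h2, fresh_of_unc _ _ _ _ _ _ _ hx h3, fresh_of_unc _ _ _ _ _ _ _ hx h4, ?_⟩
        omega
    by_cases h3 : D < (univ.filter fun v => f < agr (A v) (B' v)).card
    · rw [if_pos h3, one_mul]
      have h4 := nat_card_le_world (fun y : World q n =>
        Fresh y (extW A) (extG g) N (c * nl (extG g) N + s * B) x ∧
          nsplit y (extW A) (extW B') (extG g) N x ≤ K1)
      linarith
    · rw [if_neg h3, zero_mul, add_zero]
      have h4 := Pool.Agent.Helper5.FS.badR_card_le' A B' (extG g) f D h3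
      have h5 := hspb q n N s (c * nl (extG g) N + s * B) (N - N0 + D + 1) K1 R f (extG g) (extW A)
        (extW B') x hx hsN (by omega) hR
      rw [← hS] at h5
      linarith
  calc ∑ A : Fin N → Equiv.Perm (Fin n), ∑ B' : Fin N → Equiv.Perm (Fin n),
        (∏ j, μ (A j)) * (∏ j, μ (B' j)) *
        (Nat.card {y : World q n // Closed y (extW A) (extW B') (extG g) N x ∧
        Unc y (extW A) (extG g) N c B x ∧ Unc y (extW B') (extG g) N c B x} : ℝ) ≤
      ∑ A : Fin N → Equiv.Perm (Fin n), ∑ B' : Fin N → Equiv.Perm (Fin n),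
        (∏ j, μ (A j)) * (∏ j, μ (B' j)) * (E + S +
          (if D < (univ.filter fun v => f < agr (A v) (B' v)).card then 1 else 0) *
        (n.factorial : ℝ) ^ q) := by
        apply sum_le_sum
        intro A _
        apply sum_le_sum
        intro B' _
        exact mul_le_mul_of_nonneg_left (hpair A B') (mul_nonneg (hw0 A) (hw0 B'))
    _ = E + S + (∑ A : Fin N → Equiv.Perm (Fin n), ∑ B' : Fin N → Equiv.Perm (Fin n),
          (if D < (univ.filter fun v => f < agr (A v) (B' v)).card then
            (∏ j, μ (A j)) * (∏ j, μ (B' j)) else 0)) * (n.factorial : ℝ) ^ q := by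
        simp only [mul_add _ (E + S), sum_add_distrib, ← sum_mul]
        rw [sum_prod_one2 μ hμ1, one_mul]
        congr 1
        rw [sum_mul]
        apply sum_congr rfl
        intro A _
        rw [sum_mul]
        apply sum_congr rfl
        intro B' _
        split_ifs
        · rw [one_mul]
        · rw [zero_mul, mul_zero]
    _ ≤ E + S + 2 ^ N * p1 ^ (D + 1) * (n.factorial : ℝ) ^ q := by
        apply add_le_add_right
        apply mul_le_mul_of_nonneg_right _ (by positivity)
        exact hwrd n N f D μ p1 hμ hμ1 hp1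
    _ = _ := by
        rw [hE, hS]
        ring

/-- the path event of the final step -/
def GBU (c B : ℕ) {m : ℕ} (y : Fin q → Equiv.Perm (Fin n)) (x : Fin m ↪ Fin n)
    (g : Fin N → Option (Fin q × Bool)) (A : Fin N → Equiv.Perm (Fin n)) : Prop :=
  Unc y (extW A) (extG g) N c B x

theorem swap4 {α β γ δ : Type*} [Fintype α] [Fintype β] [Fintype γ] [Fintype δ]
    (F : α → β → γ → δ → ℝ) : ∑ y, ∑ A, ∑ B, ∑ x, F y A B x = ∑ x, ∑ A, ∑ B, ∑ y, F y A B x :=
  calc ∑ y, ∑ A, ∑ B, ∑ x, F y A B x = ∑ y, ∑ A, ∑ x, ∑ B, F y A B x :=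
        sum_congr rfl fun _ _ => sum_congr rfl fun _ _ => sum_comm
    _ = ∑ y, ∑ x, ∑ A, ∑ B, F y A B x := sum_congr rfl fun _ _ => sum_comm
    _ = ∑ x, ∑ y, ∑ A, ∑ B, F y A B x := sum_comm
    _ = ∑ x, ∑ A, ∑ y, ∑ B, F y A B x := sum_congr rfl fun _ _ => sum_comm
    _ = ∑ x, ∑ A, ∑ B, ∑ y, F y A B x :=
        sum_congr rfl fun _ _ => sum_congr rfl fun _ _ => sum_comm

/-- **the hypothesis `hg` of the stage theorem** from the bound for every start tuple -/
theorem hg_of (μ : Equiv.Perm (Fin n) → ℝ) (m c B : ℕ) (g : Fin N → Option (Fin q × Bool)) {r : ℝ}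
    (h : ∀ x : Fin m ↪ Fin n, ∑ A : Fin N → Equiv.Perm (Fin n),
      ∑ B' : Fin N → Equiv.Perm (Fin n), (∏ j, μ (A j)) * (∏ j, μ (B' j)) *
      (Nat.card {y : World q n // Closed y (extW A) (extW B') (extG g) N x ∧
        Unc y (extW A) (extG g) N c B x ∧ Unc y (extW B') (extG g) N c B x} : ℝ) ≤
      r * (n.factorial : ℝ) ^ q) :
    ∑ y : Fin q → Equiv.Perm (Fin n), cloG μ m (GBU c B y) g y ≤
      r * Fintype.card (Fin m ↪ Fin n) * Fintype.card (Fin q → Equiv.Perm (Fin n)) := by
  classical
  have h1 : ∀ (y : World q n) (A B' : Fin N → Equiv.Perm (Fin n)),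
      ((univ.filter fun x : Fin m ↪ Fin n => GBU c B y x g A ∧ GBU c B y x g B' ∧
        ∀ i, bw N A (fun j => (gl y).act (g j)) (x i) =
          bw N B' (fun j => (gl y).act (g j)) (x i)).card : ℝ) =
      ∑ x : Fin m ↪ Fin n, if Closed y (extW A) (extW B') (extG g) N x ∧
        Unc y (extW A) (extG g) N c B x ∧ Unc y (extW B') (extG g) N c B x then (1 : ℝ) else 0 := by
    intro y A B'
    rw [sum_boole]
    congr 2
    ext x
    simp only [mem_filter, mem_univ, true_and]
    rw [closed_iff2 A B' g y x]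
    unfold GBU
    tauto
  calc ∑ y : Fin q → Equiv.Perm (Fin n), cloG μ m (GBU c B y) g y =
      ∑ x : Fin m ↪ Fin n, ∑ A : Fin N → Equiv.Perm (Fin n),
      ∑ B' : Fin N → Equiv.Perm (Fin n), (∏ j, μ (A j)) * (∏ j, μ (B' j)) *
      (Nat.card {y : World q n // Closed y (extW A) (extW B') (extG g) N x ∧
        Unc y (extW A) (extG g) N c B x ∧ Unc y (extW B') (extG g) N c B x} : ℝ) := by
        have h2 : ∀ y : World q n, cloG μ m (GBU c B y) g y =
            ∑ A : Fin N → Equiv.Perm (Fin n), ∑ B' : Fin N → Equiv.Perm (Fin n),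
            ∑ x : Fin m ↪ Fin n, (∏ j, μ (A j)) * (∏ j, μ (B' j)) *
              (if Closed y (extW A) (extW B') (extG g) N x ∧ Unc y (extW A) (extG g) N c B x ∧
                Unc y (extW B') (extG g) N c B x then (1 : ℝ) else 0) := by
          intro y
          unfold cloG
          apply sum_congr rfl
          intro A _
          apply sum_congr rfl
          intro B' _
          rw [← mul_sum, ← h1]
        rw [sum_congr rfl fun y _ => h2 y, swap4]
        apply sum_congr rfl
        intro x _
        apply sum_congr rfl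
        intro A _
        apply sum_congr rfl
        intro B' _
        rw [nat_card_eq, mul_sum]
    _ ≤ ∑ _x : Fin m ↪ Fin n, r * (n.factorial : ℝ) ^ q := sum_le_sum fun x _ => h x
    _ = _ := by
        rw [sum_const, card_univ, nsmul_eq_mul]
        have h3 : (Fintype.card (Fin q → Equiv.Perm (Fin n)) : ℝ) = (n.factorial : ℝ) ^ q := by
          have := card_world' (q := q) (n := n)
          exact_mod_cast this
        rw [h3]
        ring

end Pool.Agent.Helper73.TP
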