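import Pool.Agent.Helper73.TP.TopPart
import Pool.Agent.Helper1.TP.TopLev
import Pool.Agent.Helper86.FS.Start

/-!
# Project FS (MP_75608d_al): the top levels, without hypotheses
-/

set_option autoImplicit false

namespace Pool.Agent.Helper73.TP

open Pool.Agent.Helper3.FS (S_PART)

/-- for every `C1 > 0` there is `C2 > 0` such that the levels between `n / (C1 log n)` and `n / C2`
are fine -/
theorem top_part' : ∀ C1 : ℝ, 0 < C1 → ∃ C2 : ℝ, 0 < C2 ∧
    S_PART (fun n => (n : ℝ) / (C1 * Real.log n)) (fun n => (n : ℝ) / C2) :=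
  top_part Pool.Agent.Helper1.TP.s_toplev Pool.Agent.Helper86.FS.supstart

end Pool.Agent.Helper73.TP
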