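import Pool.Agent.Helper73.TP.Link
import Pool.Agent.Helper13.FS.StageF
import Pool.Agent.Helper99.FS.Avg

/-!
# Project FS (MP_75608d_al), final step: the average over the worlds

For one good pattern `g`: the average over the worlds, the words and the start tuples of the event
that both systems are unconfined and closed is at most `r1 + r2`, where `r1` bounds the closed fresh
split systems (closing lemma) and `r2` the systems which are split at few places.
-/

set_option autoImplicit false
set_option linter.unusedSectionVars false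

namespace Pool.Agent.Helper73.TP

open Finset Pool.Agent.Helper35.MP Pool.Agent.Helper13.FS Pool.Agent.Helper1.TP
open Pool.Agent.Helper4.FS (World Lt Stp prog Uses ed)
open Pool.Agent.Helper99.FS (ex)

variable {q n s N : ℕ}

theorem ex_coe (A : Fin N → Equiv.Perm (Fin n)) : (fun j : Fin N => ex A j) = A := by
  funext j
  unfold ex
  rw [dif_pos j.2]

theorem ext_coe' (g : Fin N → Option (Lt q)) :
    (fun j : Fin N => Pool.Agent.Helper35.FS.ext g j) = g := by
  funext j
  unfold Pool.Agent.Helper35.FS.ext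
  rw [dif_pos j.2]

/-- the product of the blocks is the position after `2 N` half steps -/
theorem bw_hp (A : Fin N → Equiv.Perm (Fin n)) (g : Fin N → Option (Lt q)) (y : World q n)
    (p : Fin n) : bw N A (fun j => (gl y).act (g j)) p =
      hp y (ex A) (Pool.Agent.Helper35.FS.ext g) (2 * N) p := by
  have h := pos_bw (ex A) (Pool.Agent.Helper35.FS.ext g) y N p
  rw [ex_coe] at h
  unfold hp
  rw [h]
  congr 2
  funext j
  rw [← congrFun (ext_coe' g) j]

/-- equality of the block products on a tuple is `Closed` -/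
theorem closed_iff (A A' : Fin N → Equiv.Perm (Fin n)) (g : Fin N → Option (Lt q))
    (y : World q n) (x : Fin s → Fin n) :
    (∀ l, bw N A (fun j => (gl y).act (g j)) (x l) = bw N A' (fun j => (gl y).act (g j)) (x l)) ↔
      Closed y (ex A) (ex A') (Pool.Agent.Helper35.FS.ext g) N x := by
  unfold Closed
  simp only [bw_hp]

theorem sum_prod_one (μ : Equiv.Perm (Fin n) → ℝ) (h : ∑ p, μ p = 1) :
    ∑ A : Fin N → Equiv.Perm (Fin n), ∏ j, μ (A j) = 1 := by
  rw [← Fintype.prod_sum fun (_ : Fin N) p => μ p]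
  exact prod_eq_one fun j _ => h

open Classical in
/-- **the average over the worlds for a good pattern**, general form -/
theorem hg_gen (μ : Equiv.Perm (Fin n) → ℝ) (hμ : ∀ p, 0 ≤ μ p) (hμ1 : ∑ p, μ p = 1)
    (g : Fin N → Option (Lt q)) {c B F K1 : ℕ} {r1 r2 : ℝ}
    (hF : c * nl (Pool.Agent.Helper35.FS.ext g) N + s * B ≤ F)
    (hfcl : ∀ (A A' : Fin N → Equiv.Perm (Fin n)) (x : Fin s ↪ Fin n),
      ((univ.filter fun y : World q n =>
        Closed y (ex A) (ex A') (Pool.Agent.Helper35.FS.ext g) N x ∧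
        Fresh y (ex A) (Pool.Agent.Helper35.FS.ext g) N F x ∧
        Fresh y (ex A') (Pool.Agent.Helper35.FS.ext g) N F x ∧
        K1 < nsplit y (ex A) (ex A') (Pool.Agent.Helper35.FS.ext g) N x).card : ℝ) ≤
      r1 * Fintype.card (World q n))
    (hsp : ∀ x : Fin s ↪ Fin n, ∑ y : World q n, ∑ A : Fin N → Equiv.Perm (Fin n),
      ∑ A' : Fin N → Equiv.Perm (Fin n), (∏ j, μ (A j)) * (∏ j, μ (A' j)) *
        (if Fresh y (ex A) (Pool.Agent.Helper35.FS.ext g) N F x ∧
          nsplit y (ex A) (ex A') (Pool.Agent.Helper35.FS.ext g) N x ≤ K1 then 1 else 0) ≤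
      r2 * Fintype.card (World q n)) :
    ∑ y : World q n, ∑ A : Fin N → Equiv.Perm (Fin n), ∑ A' : Fin N → Equiv.Perm (Fin n),
      (∏ j, μ (A j)) * (∏ j, μ (A' j)) *
        ((univ.filter fun x : Fin s ↪ Fin n =>
          (∀ l, bw N A (fun j => (gl y).act (g j)) (x l) =
            bw N A' (fun j => (gl y).act (g j)) (x l)) ∧
          Unc y (ex A) (Pool.Agent.Helper35.FS.ext g) N c B x ∧
          Unc y (ex A') (Pool.Agent.Helper35.FS.ext g) N c B x).card : ℝ) ≤
      (r1 + r2) * Fintype.card (Fin s ↪ Fin n) * Fintype.card (World q n) := by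
  obtain ⟨W, hW⟩ : ∃ W : ℝ, W = Fintype.card (World q n) := ⟨_, rfl⟩
  rw [← hW] at hfcl hsp
  rw [← hW]
  obtain ⟨w, hw⟩ : ∃ w : (Fin N → Equiv.Perm (Fin n)) → ℝ, ∀ A, w A = ∏ j, μ (A j) :=
    ⟨_, fun _ => rfl⟩
  have hw0 : ∀ A, 0 ≤ w A := fun A => by
    rw [hw]
    exact prod_nonneg fun j _ => hμ _
  have hw1 : ∑ A, w A = 1 := by
    rw [sum_congr rfl fun A _ => hw A]
    exact sum_prod_one μ hμ1
  simp only [← hw] at hsp ⊢
  obtain ⟨E1, hE1⟩ : ∃ E1 : World q n → (Fin N → Equiv.Perm (Fin n)) →
      (Fin N → Equiv.Perm (Fin n)) → (Fin s ↪ Fin n) → ℝ, ∀ y A A' x, E1 y A A' x =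
      if Closed y (ex A) (ex A') (Pool.Agent.Helper35.FS.ext g) N x ∧
        Fresh y (ex A) (Pool.Agent.Helper35.FS.ext g) N F x ∧
        Fresh y (ex A') (Pool.Agent.Helper35.FS.ext g) N F x ∧
        K1 < nsplit y (ex A) (ex A') (Pool.Agent.Helper35.FS.ext g) N x then 1 else 0 :=
    ⟨_, fun _ _ _ _ => rfl⟩
  obtain ⟨E2, hE2⟩ : ∃ E2 : World q n → (Fin N → Equiv.Perm (Fin n)) →
      (Fin N → Equiv.Perm (Fin n)) → (Fin s ↪ Fin n) → ℝ, ∀ y A A' x, E2 y A A' x =
      if Fresh y (ex A) (Pool.Agent.Helper35.FS.ext g) N F x ∧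
          nsplit y (ex A) (ex A') (Pool.Agent.Helper35.FS.ext g) N x ≤ K1 then 1 else 0 :=
    ⟨_, fun _ _ _ _ => rfl⟩
  simp only [← hE2] at hsp
  have hfcl' : ∀ A A' x, ∑ y, E1 y A A' x ≤ r1 * W := by
    intro A A' x
    refine le_trans (le_of_eq ?_) (hfcl A A' x)
    simp only [hE1, sum_boole]
  -- pointwise
  have hpt : ∀ y A A', ((univ.filter fun x : Fin s ↪ Fin n =>
      (∀ l, bw N A (fun j => (gl y).act (g j)) (x l) =
        bw N A' (fun j => (gl y).act (g j)) (x l)) ∧
      Unc y (ex A) (Pool.Agent.Helper35.FS.ext g) N c B x ∧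
      Unc y (ex A') (Pool.Agent.Helper35.FS.ext g) N c B x).card : ℝ) ≤
      ∑ x, (E1 y A A' x + E2 y A A' x) := by
    intro y A A'
    rw [card_filter, Nat.cast_sum]
    apply sum_le_sum
    intro x _
    have h0 : 0 ≤ E1 y A A' x := by
      rw [hE1]
      split_ifs
      · exact zero_le_one
      · exact le_rfl
    have h0' : 0 ≤ E2 y A A' x := by
      rw [hE2]
      split_ifs
      · exact zero_le_one
      · exact le_rfl
    split_ifs with h
    · obtain ⟨h1, h2, h3⟩ := h
      have hmono : ∀ A : Fin N → Equiv.Perm (Fin n), Unc y (ex A) (Pool.Agent.Helper35.FS.ext g) N c B x →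
          Fresh y (ex A) (Pool.Agent.Helper35.FS.ext g) N F x := by
        intro A h4
        have h5 := fresh_of_unc y (ex A) (Pool.Agent.Helper35.FS.ext g) N c B x x.injective h4
        unfold Fresh at h5 ⊢
        omega
      have hc := (closed_iff A A' g y x).1 h1
      by_cases h4 : K1 < nsplit y (ex A) (ex A') (Pool.Agent.Helper35.FS.ext g) N x
      · have h5 : E1 y A A' x = 1 := by
          rw [hE1, if_pos ⟨hc, hmono A h2, hmono A' h3, h4⟩]
        rw [h5]
        push_cast
        linarith
      · have h5 : E2 y A A' x = 1 := by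
          rw [hE2, if_pos ⟨hmono A h2, not_lt.1 h4⟩]
        rw [h5]
        push_cast
        linarith
    · push_cast
      linarith
  calc ∑ y : World q n, ∑ A : Fin N → Equiv.Perm (Fin n), ∑ A' : Fin N → Equiv.Perm (Fin n),
        w A * w A' * ((univ.filter fun x : Fin s ↪ Fin n =>
          (∀ l, bw N A (fun j => (gl y).act (g j)) (x l) =
            bw N A' (fun j => (gl y).act (g j)) (x l)) ∧
          Unc y (ex A) (Pool.Agent.Helper35.FS.ext g) N c B x ∧
          Unc y (ex A') (Pool.Agent.Helper35.FS.ext g) N c B x).card : ℝ) ≤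
      ∑ y : World q n, ∑ A : Fin N → Equiv.Perm (Fin n), ∑ A' : Fin N → Equiv.Perm (Fin n),
        w A * w A' * ∑ x, (E1 y A A' x + E2 y A A' x) := by
        apply sum_le_sum
        intro y _
        apply sum_le_sum
        intro A _
        apply sum_le_sum
        intro A' _
        exact mul_le_mul_of_nonneg_left (hpt y A A') (mul_nonneg (hw0 A) (hw0 A'))
    _ = ∑ x : Fin s ↪ Fin n, ((∑ A : Fin N → Equiv.Perm (Fin n),
          ∑ A' : Fin N → Equiv.Perm (Fin n), w A * w A' * ∑ y, E1 y A A' x) +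
          ∑ y : World q n, ∑ A : Fin N → Equiv.Perm (Fin n), ∑ A' : Fin N → Equiv.Perm (Fin n),
            w A * w A' * E2 y A A' x) := by
        simp only [mul_sum, mul_add, sum_add_distrib]
        congr 1
        · rw [sum_congr rfl fun y _ => sum_congr rfl fun A _ => sum_comm]
          rw [sum_congr rfl fun y _ => sum_comm]
          rw [sum_comm]
          apply sum_congr rfl
          intro x _
          rw [sum_comm]
          apply sum_congr rfl
          intro A _
          rw [sum_comm]
        · rw [sum_congr rfl fun y _ => sum_congr rfl fun A _ => sum_comm]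
          rw [sum_congr rfl fun y _ => sum_comm]
          rw [sum_comm]
    _ ≤ ∑ _x : Fin s ↪ Fin n, (r1 * W + r2 * W) := by
        apply sum_le_sum
        intro x _
        apply add_le_add
        · calc ∑ A : Fin N → Equiv.Perm (Fin n), ∑ A' : Fin N → Equiv.Perm (Fin n),
              w A * w A' * ∑ y, E1 y A A' x ≤
              ∑ A : Fin N → Equiv.Perm (Fin n), ∑ A' : Fin N → Equiv.Perm (Fin n),
                w A * w A' * (r1 * W) := by
                apply sum_le_sum
                intro A _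
                apply sum_le_sum
                intro A' _
                exact mul_le_mul_of_nonneg_left (hfcl' A A' x) (mul_nonneg (hw0 A) (hw0 A'))
            _ = r1 * W := by
                rw [← sum_congr rfl fun A _ => sum_mul .. , ← sum_mul]
                rw [← sum_mul_sum, hw1, one_mul, one_mul]
        · exact hsp x
    _ = (r1 + r2) * Fintype.card (Fin s ↪ Fin n) * W := by
        rw [sum_const, card_univ, nsmul_eq_mul]
        ring

open Classical in
/-- the form for the top region: the systems which are split at few places have small weight for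
every world -/
theorem hgA (μ : Equiv.Perm (Fin n) → ℝ) (hμ : ∀ p, 0 ≤ μ p) (hμ1 : ∑ p, μ p = 1)
    (g : Fin N → Option (Lt q)) {c B F K1 : ℕ} {r1 r2 : ℝ}
    (hF : c * nl (Pool.Agent.Helper35.FS.ext g) N + s * B ≤ F)
    (hfcl : ∀ (A A' : Fin N → Equiv.Perm (Fin n)) (x : Fin s ↪ Fin n),
      ((univ.filter fun y : World q n =>
        Closed y (ex A) (ex A') (Pool.Agent.Helper35.FS.ext g) N x ∧
        Fresh y (ex A) (Pool.Agent.Helper35.FS.ext g) N F x ∧
        Fresh y (ex A') (Pool.Agent.Helper35.FS.ext g) N F x ∧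
        K1 < nsplit y (ex A) (ex A') (Pool.Agent.Helper35.FS.ext g) N x).card : ℝ) ≤
      r1 * Fintype.card (World q n))
    (hspa : ∀ (y : World q n) (x : Fin s ↪ Fin n), ∑ A : Fin N → Equiv.Perm (Fin n),
      ∑ A' : Fin N → Equiv.Perm (Fin n), (∏ j, μ (A j)) * (∏ j, μ (A' j)) *
        (if nsplit y (ex A) (ex A') (Pool.Agent.Helper35.FS.ext g) N x ≤ K1 then 1 else 0) ≤ r2) :
    ∑ y : World q n, ∑ A : Fin N → Equiv.Perm (Fin n), ∑ A' : Fin N → Equiv.Perm (Fin n),
      (∏ j, μ (A j)) * (∏ j, μ (A' j)) *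
        ((univ.filter fun x : Fin s ↪ Fin n =>
          (∀ l, bw N A (fun j => (gl y).act (g j)) (x l) =
            bw N A' (fun j => (gl y).act (g j)) (x l)) ∧
          Unc y (ex A) (Pool.Agent.Helper35.FS.ext g) N c B x ∧
          Unc y (ex A') (Pool.Agent.Helper35.FS.ext g) N c B x).card : ℝ) ≤
      (r1 + r2) * Fintype.card (Fin s ↪ Fin n) * Fintype.card (World q n) := by
  apply hg_gen μ hμ hμ1 g hF hfcl
  intro x
  calc _ ≤ ∑ y : World q n, ∑ A : Fin N → Equiv.Perm (Fin n),
      ∑ A' : Fin N → Equiv.Perm (Fin n), (∏ j, μ (A j)) * (∏ j, μ (A' j)) *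
        (if nsplit y (ex A) (ex A') (Pool.Agent.Helper35.FS.ext g) N x ≤ K1 then 1 else 0) := by
        apply sum_le_sum
        intro y _
        apply sum_le_sum
        intro A _
        apply sum_le_sum
        intro A' _
        apply mul_le_mul_of_nonneg_left
        · split_ifs with h1 h2 h2
          · exact le_rfl
          · exact absurd h1.2 h2
          · exact zero_le_one
          · exact le_rfl
        · exact mul_nonneg (prod_nonneg fun j _ => hμ _) (prod_nonneg fun j _ => hμ _)
    _ ≤ ∑ _y : World q n, r2 := sum_le_sum fun y _ => hspa y x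
    _ = r2 * Fintype.card (World q n) := by
        rw [sum_const, card_univ, nsmul_eq_mul]
        ring

open Classical in
/-- the form for the middle region: the systems of good words which are split at few places are few
for every choice of the words, bad words have small weight -/
theorem hgB (μ : Equiv.Perm (Fin n) → ℝ) (hμ : ∀ p, 0 ≤ μ p) (hμ1 : ∑ p, μ p = 1)
    (g : Fin N → Option (Lt q)) {c B F K1 : ℕ} {r1 r2 r3 : ℝ} (hr2 : 0 ≤ r2)
    (hF : c * nl (Pool.Agent.Helper35.FS.ext g) N + s * B ≤ F)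
    (hfcl : ∀ (A A' : Fin N → Equiv.Perm (Fin n)) (x : Fin s ↪ Fin n),
      ((univ.filter fun y : World q n =>
        Closed y (ex A) (ex A') (Pool.Agent.Helper35.FS.ext g) N x ∧
        Fresh y (ex A) (Pool.Agent.Helper35.FS.ext g) N F x ∧
        Fresh y (ex A') (Pool.Agent.Helper35.FS.ext g) N F x ∧
        K1 < nsplit y (ex A) (ex A') (Pool.Agent.Helper35.FS.ext g) N x).card : ℝ) ≤
      r1 * Fintype.card (World q n))
    (BadW : (Fin N → Equiv.Perm (Fin n)) → (Fin N → Equiv.Perm (Fin n)) → Prop)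
    (hspb : ∀ (A A' : Fin N → Equiv.Perm (Fin n)) (x : Fin s ↪ Fin n), ¬ BadW A A' →
      ((univ.filter fun y : World q n =>
        Fresh y (ex A) (Pool.Agent.Helper35.FS.ext g) N F x ∧
        nsplit y (ex A) (ex A') (Pool.Agent.Helper35.FS.ext g) N x ≤ K1).card : ℝ) ≤
      r2 * Fintype.card (World q n))
    (hwrd : ∑ A : Fin N → Equiv.Perm (Fin n), ∑ A' : Fin N → Equiv.Perm (Fin n),
      (∏ j, μ (A j)) * (∏ j, μ (A' j)) * (if BadW A A' then 1 else 0) ≤ r3) :
    ∑ y : World q n, ∑ A : Fin N → Equiv.Perm (Fin n), ∑ A' : Fin N → Equiv.Perm (Fin n),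
      (∏ j, μ (A j)) * (∏ j, μ (A' j)) *
        ((univ.filter fun x : Fin s ↪ Fin n =>
          (∀ l, bw N A (fun j => (gl y).act (g j)) (x l) =
            bw N A' (fun j => (gl y).act (g j)) (x l)) ∧
          Unc y (ex A) (Pool.Agent.Helper35.FS.ext g) N c B x ∧
          Unc y (ex A') (Pool.Agent.Helper35.FS.ext g) N c B x).card : ℝ) ≤
      (r1 + (r2 + r3)) * Fintype.card (Fin s ↪ Fin n) * Fintype.card (World q n) := by
  apply hg_gen μ hμ hμ1 g hF hfcl
  intro x
  obtain ⟨W, hW⟩ : ∃ W : ℝ, W = Fintype.card (World q n) := ⟨_, rfl⟩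
  rw [← hW] at hspb
  rw [← hW]
  have hW0 : 0 ≤ W := by
    rw [hW]
    exact Nat.cast_nonneg _
  obtain ⟨w, hw⟩ : ∃ w : (Fin N → Equiv.Perm (Fin n)) → ℝ, ∀ A, w A = ∏ j, μ (A j) :=
    ⟨_, fun _ => rfl⟩
  have hw0 : ∀ A, 0 ≤ w A := fun A => by
    rw [hw]
    exact prod_nonneg fun j _ => hμ _
  have hw1 : ∑ A, w A = 1 := by
    rw [sum_congr rfl fun A _ => hw A]
    exact sum_prod_one μ hμ1
  simp only [← hw] at hwrd ⊢
  calc _ = ∑ A : Fin N → Equiv.Perm (Fin n), ∑ A' : Fin N → Equiv.Perm (Fin n), w A * w A' *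
        ((univ.filter fun y : World q n =>
          Fresh y (ex A) (Pool.Agent.Helper35.FS.ext g) N F x ∧
          nsplit y (ex A) (ex A') (Pool.Agent.Helper35.FS.ext g) N x ≤ K1).card : ℝ) := by
        rw [sum_comm]
        apply sum_congr rfl
        intro A _
        rw [sum_comm]
        apply sum_congr rfl
        intro A' _
        rw [← mul_sum, sum_boole]
    _ ≤ ∑ A : Fin N → Equiv.Perm (Fin n), ∑ A' : Fin N → Equiv.Perm (Fin n), w A * w A' *
        (r2 * W + (if BadW A A' then 1 else 0) * W) := by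
        apply sum_le_sum
        intro A _
        apply sum_le_sum
        intro A' _
        apply mul_le_mul_of_nonneg_left _ (mul_nonneg (hw0 A) (hw0 A'))
        by_cases h : BadW A A'
        · rw [if_pos h, one_mul, hW]
          have h1 : ((univ.filter fun y : World q n =>
              Fresh y (ex A) (Pool.Agent.Helper35.FS.ext g) N F x ∧
              nsplit y (ex A) (ex A') (Pool.Agent.Helper35.FS.ext g) N x ≤ K1).card : ℝ) ≤
              Fintype.card (World q n) := by
            exact_mod_cast card_le_univ _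
          rw [← hW] at h1 ⊢
          linarith [mul_nonneg hr2 hW0]
        · rw [if_neg h, zero_mul, add_zero]
          exact hspb A A' x h
    _ = r2 * W + (∑ A : Fin N → Equiv.Perm (Fin n), ∑ A' : Fin N → Equiv.Perm (Fin n),
          w A * w A' * (if BadW A A' then 1 else 0)) * W := by
        have h1 : ∀ A A', w A * w A' * (r2 * W + (if BadW A A' then 1 else 0) * W) =
            w A * w A' * (r2 * W) + w A * w A' * (if BadW A A' then 1 else 0) * W := by
          intro A A'
          ring
        simp only [h1, sum_add_distrib, ← sum_mul]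
        rw [← sum_mul_sum, hw1, one_mul, one_mul]
    _ ≤ r2 * W + r3 * W := by
        have := mul_le_mul_of_nonneg_right hwrd hW0
        linarith
    _ = (r2 + r3) * W := by ring

end Pool.Agent.Helper73.TP
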