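import Pool.Agent.Helper1.TP.Defs

/-!
# Project FS (MP_75608d_al), final step: links

`fresh_of_unc`: few confined rounds make the path system fresh. `pos_tup`: the end point of a letter
sequence of the schedule in terms of the half steps.
-/

set_option autoImplicit false
set_option linter.unusedSectionVars false

namespace Pool.Agent.Helper73.TP

open Finset Pool.Agent.Helper35.MP Pool.Agent.Helper13.FS Pool.Agent.Helper1.TP
open Pool.Agent.Helper4.FS (World Lt Stp prog Uses ed pos_odd_some prog_odd_some prog_odd_none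
  prog_even)

section fresh

variable {q n s : ℕ}

/-- an edge crossed in two different rounds: the position before the later crossing is one of the
two end points of the earlier crossing -/
theorem ed_eq_cases (y : World q n) (m m' : Lt q) (p p' : Fin n) (h : ed y m p = ed y m' p') :
    p' = p ∨ p' = Pool.Agent.Helper4.FS.lp y m p := by
  obtain ⟨j, b⟩ := m
  obtain ⟨j', b'⟩ := m'
  simp only [ed, Prod.mk.injEq] at h
  obtain ⟨rfl, h2⟩ := h
  cases b <;> cases b' <;> simp only [Pool.Agent.Helper4.FS.lp, Bool.false_eq_true, if_false, if_true] at h2 ⊢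
  · exact Or.inl ((y j)⁻¹.injective h2).symm
  · exact Or.inr h2.symm
  · right
    rw [h2]
    simp
  · exact Or.inl h2.symm

theorem hp_inj (y : World q n) (a : ℕ → Equiv.Perm (Fin n)) (g : ℕ → Option (Lt q)) (t : ℕ)
    {p p' : Fin n} (h : hp y a g t p = hp y a g t p') : p = p' :=
  Pool.Agent.Helper4.FS.pos_inj _ y 0 t h

/-- **few confined rounds make the system fresh** -/
theorem fresh_of_unc (y : World q n) (a : ℕ → Equiv.Perm (Fin n)) (g : ℕ → Option (Lt q))
    (N c B : ℕ) (x : Fin s → Fin n) (hx : Function.Injective x) (h : Unc y a g N c B x) :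
    Fresh y a g N (c * nl g N + s * B) x := by
  classical
  obtain ⟨All, hAll⟩ : ∃ All : Finset (Fin s × ℕ), All = ((univ : Finset (Fin s)) ×ˢ
    range N).filter fun lv => g lv.2 ≠ none := ⟨_, rfl⟩
  obtain ⟨Good, hGood⟩ : ∃ Good : Finset (Fin s × ℕ), Good = ((univ : Finset (Fin s)) ×ˢ
    range N).filter fun lv => g lv.2 ≠ none ∧
      hp y a g (2 * lv.2 + 1) (x lv.1) ∉ vis y a g lv.2 x := ⟨_, rfl⟩
  obtain ⟨Bad, hBad⟩ : ∃ Bad : Finset (Fin s × ℕ), Bad = ((univ : Finset (Fin s)) ×ˢ
    (range N).filter fun v => g v ≠ none).filter fun lv =>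
      hp y a g (2 * lv.2 + 1) (x lv.1) ∈ vis y a g lv.2 x := ⟨_, rfl⟩
  have hAllc : All.card = s * nl g N := by
    have h1 : All = (univ : Finset (Fin s)) ×ˢ ((range N).filter fun v => g v ≠ none) := by
      rw [hAll]
      ext ⟨l, v⟩
      simp only [mem_filter, mem_product, mem_univ, true_and]
    rw [h1, card_product, card_univ, Fintype.card_fin]
    rfl
  have hsub : All.card ≤ Good.card + Bad.card := by
    refine (card_le_card ?_).trans (card_union_le Good Bad)
    intro lv hlv
    rw [hAll, mem_filter] at hlv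
    rw [mem_union, hGood, hBad, mem_filter, mem_filter]
    by_cases h1 : hp y a g (2 * lv.2 + 1) (x lv.1) ∈ vis y a g lv.2 x
    · refine Or.inr ⟨?_, h1⟩
      rw [mem_product, mem_filter]
      exact ⟨mem_univ _, (mem_product.1 hlv.1).2, hlv.2⟩
    · exact Or.inl ⟨hlv.1, hlv.2, h1⟩
  have hBadc : Bad.card ≤ c * nl g N + s * B := by
    have h1 : Bad.card = ∑ v ∈ (range N).filter (fun v => g v ≠ none),
        ((univ : Finset (Fin s)).filter fun l =>
          hp y a g (2 * v + 1) (x l) ∈ vis y a g v x).card := by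
      rw [hBad, card_filter, sum_product_right]
      apply sum_congr rfl
      intro v _
      rw [card_filter]
    rw [h1]
    calc ∑ v ∈ (range N).filter (fun v => g v ≠ none), ((univ : Finset (Fin s)).filter fun l =>
          hp y a g (2 * v + 1) (x l) ∈ vis y a g v x).card ≤
          ∑ v ∈ (range N).filter (fun v => g v ≠ none), (c + (if Conf y a g v c x then s else 0)) := by
          apply sum_le_sum
          intro v _
          by_cases h2 : Conf y a g v c x
          · rw [if_pos h2]
            refine ((card_le_univ _).trans ?_)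
            rw [Fintype.card_fin]
            omega
          · rw [if_neg h2]
            unfold Conf at h2
            push Not at h2
            omega
      _ ≤ c * nl g N + s * ((range N).filter fun v => Conf y a g v c x).card := by
          rw [sum_add_distrib, ← sum_filter, sum_const, sum_const, smul_eq_mul,
            smul_eq_mul, mul_comm _ c, mul_comm _ s]
          apply Nat.add_le_add
          · exact le_rfl
          · apply Nat.mul_le_mul_left
            apply card_le_card
            intro v hv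
            rw [mem_filter, mem_filter] at hv
            rw [mem_filter]
            exact ⟨hv.1.1, hv.2⟩
      _ ≤ c * nl g N + s * B := by
          apply Nat.add_le_add_left
          apply Nat.mul_le_mul_left
          unfold Unc at h
          convert h
  have hGoodc : Good.card ≤ (crossed y a g N x).ncard := by
    obtain ⟨T, hT⟩ : ∃ T : Finset (Fin q × Fin n), T = (Set.toFinite (crossed y a g N x)).toFinset :=
      ⟨_, rfl⟩
    have h1 : (crossed y a g N x).ncard = T.card := by
      rw [hT, Set.ncard_eq_toFinset_card]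
    rw [h1, ← card_map (Function.Embedding.some (α := Fin q × Fin n))]
    obtain ⟨E, hE⟩ : ∃ E : Fin s × ℕ → Option (Fin q × Fin n), ∀ lv, E lv =
      (g lv.2).map fun m => ed y m (hp y a g (2 * lv.2 + 1) (x lv.1)) := ⟨_, fun _ => rfl⟩
    apply card_le_card_of_injOn E
    · rintro ⟨l, v⟩ hlv
      rw [mem_coe, hGood, mem_filter, mem_product, mem_range] at hlv
      obtain ⟨⟨_, hv⟩, hg, _⟩ := hlv
      obtain ⟨m, hm⟩ := Option.ne_none_iff_exists'.1 hg
      rw [mem_coe, hE, mem_map]
      refine ⟨ed y m (hp y a g (2 * v + 1) (x l)), ?_, ?_⟩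
      · rw [hT, Set.Finite.mem_toFinset]
        refine ⟨l, 2 * v + 1, ?_, m, ?_, rfl⟩
        · have hv' : v < N := hv
          omega
        · rw [Nat.zero_add]
          exact prog_odd_some hm
      · show some _ = Option.map _ (g v)
        rw [show g v = some m from hm]
        rfl
    · -- injectivity
      have key : ∀ (l l' : Fin s) (v v' : ℕ), v < v' → g v ≠ none →
          hp y a g (2 * v' + 1) (x l') ∉ vis y a g v' x → g v' ≠ none → E (l, v) ≠ E (l', v') := by
        intro l l' v v' hvv hg hnv hg' hEE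
        obtain ⟨m, hm⟩ := Option.ne_none_iff_exists'.1 hg
        obtain ⟨m', hm'⟩ := Option.ne_none_iff_exists'.1 hg'
        rw [hE, hE] at hEE
        simp only [hm, hm', Option.map_some, Option.some.injEq] at hEE
        apply hnv
        unfold vis
        rw [mem_image]
        rcases ed_eq_cases y m m' _ _ hEE with h2 | h2
        · refine ⟨(l, 2 * v + 1), ?_, h2.symm⟩
          rw [mem_product, mem_Icc]
          exact ⟨mem_univ _, by simp only; omega, by simp only; omega⟩
        · refine ⟨(l, 2 * v + 2), ?_, ?_⟩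
          · rw [mem_product, mem_Icc]
            exact ⟨mem_univ _, by simp only; omega, by simp only; omega⟩
          · show hp y a g (2 * v + 2) (x l) = _
            rw [h2]
            exact pos_odd_some hm y (x l)
      rintro ⟨l, v⟩ hlv ⟨l', v'⟩ hlv' hEE
      rw [mem_coe, hGood, mem_filter, mem_product, mem_range] at hlv hlv'
      obtain ⟨⟨_, hv⟩, hg, hnv⟩ := hlv
      obtain ⟨⟨_, hv'⟩, hg', hnv'⟩ := hlv'
      rcases lt_trichotomy v v' with h2 | h2 | h2
      · exact absurd hEE (key l l' v v' h2 hg hnv' hg')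
      · subst h2
        obtain ⟨m, hm⟩ := Option.ne_none_iff_exists'.1 hg
        rw [hE, hE] at hEE
        simp only at hm
        simp only [hm, Option.map_some, Option.some.injEq] at hEE
        have h3 : hp y a g (2 * v + 1) (x l) = hp y a g (2 * v + 1) (x l') := by
          obtain ⟨j, b⟩ := m
          simp only [ed, Prod.mk.injEq, true_and] at hEE
          cases b
          · simp only [Bool.false_eq_true, if_false] at hEE
            exact (y j)⁻¹.injective hEE
          · simpa using hEE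
        rw [hx (hp_inj y a g _ h3)]
      · exact absurd hEE.symm (key l' l v' v h2 hg' hnv hg)
  unfold Fresh
  omega

end fresh

section link

variable {X Lam : Type*} [Fintype X] [DecidableEq X] [Fintype Lam] [DecidableEq Lam]

/-- the product of the first `i` letters of an infinite sequence -/
def pz (L : Letters X Lam) (f : ℕ → Lam) : ℕ → Equiv.Perm X
  | 0 => 1
  | i + 1 => L.act (f i) * pz L f i

theorem pz_tail (L : Letters X Lam) (f : ℕ → Lam) : ∀ i, pz L (fun k => f (k + 1)) i * L.act (f 0) =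
    pz L f (i + 1)
  | 0 => by
    show 1 * L.act (f 0) = L.act (f 0) * 1
    rw [one_mul, mul_one]
  | i + 1 => by
    show L.act (f (i + 1)) * pz L (fun k => f (k + 1)) i * L.act (f 0) = L.act (f (i + 1)) *
      pz L f (i + 1)
    rw [mul_assoc, pz_tail L f i]

theorem wd_pz (L : Letters X Lam) : ∀ (M : ℕ) (f : ℕ → Lam), wd L M (fun k => f k) = pz L f M
  | 0, _ => rfl
  | M + 1, f => by
    show wd L M (fun k => f (k.succ : Fin (M + 1))) * L.act (f ((0 : Fin (M + 1)) : ℕ)) = _
    rw [← pz_tail]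
    congr 1
    exact wd_pz L M fun k => f (k + 1)

variable {q n s : ℕ} {LZ : Type} [Fintype LZ] [DecidableEq LZ]

theorem ext_coe {M : ℕ} (Z : Letters (Fin n) LZ) (ls : Fin M → LZ ⊕ Lt q) :
    (fun k : Fin M => ext Z ls k) = ls := by
  funext k
  unfold Pool.Agent.Helper1.TP.ext
  rw [dif_pos k.2]

/-- the product of the letters in the first `k` slots -/
def pq (Z : Letters (Fin n) LZ) (y : World q n) {M : ℕ} (ls : Fin M → LZ ⊕ Lt q) (k : ℕ) :
    Equiv.Perm (Fin n) := pz (comb Z y) (ext Z ls) k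

theorem wd_pq (Z : Letters (Fin n) LZ) (y : World q n) {M : ℕ} (ls : Fin M → LZ ⊕ Lt q) :
    wd (comb Z y) M ls = pq Z y ls M := by
  unfold pq
  rw [← wd_pz, ext_coe]

/-- the letter sequences of the schedule: old letters in the word slots, a fresh letter or the lazy
letter in the letter slots -/
def Sup (Z : Letters (Fin n) LZ) (t1 N : ℕ) (ls : Fin (MM t1 N) → LZ ⊕ Lt q) : Prop :=
  (∀ v i, v < N → i < t1 → ∃ l, ext Z ls (v * (t1 + 1) + i) = Sum.inl l) ∧
  ∀ v, v < N → (ext Z ls (v * (t1 + 1) + t1) = Sum.inl Z.e ∨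
    ∃ m, ext Z ls (v * (t1 + 1) + t1) = Sum.inr m)

theorem slot_lt {t1 N v i : ℕ} (hv : v < N) (hi : i ≤ t1) : v * (t1 + 1) + i < MM t1 N := by
  have h1 : (v + 1) * (t1 + 1) ≤ N * (t1 + 1) := Nat.mul_le_mul_right _ hv
  have h2 : (v + 1) * (t1 + 1) = v * (t1 + 1) + (t1 + 1) := by ring
  unfold MM
  omega

/-- sequences of positive weight are in `Sup` -/
theorem sup_of_ne (Z : Letters (Fin n) LZ) (lz : ℝ) (S0 : LZ → ℝ) (t1 N : ℕ)
    (ls : Fin (MM t1 N) → LZ ⊕ Lt q) (h : ∀ k, sch q Z lz S0 t1 N k (ls k) ≠ 0) :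
    Sup Z t1 N ls := by
  constructor
  · intro v i hv hi
    have h1 := slot_lt hv hi.le
    have h2 := h ⟨v * (t1 + 1) + i, h1⟩
    unfold sch at h2
    have h3 : (v * (t1 + 1) + i) % (t1 + 1) = i := by
      rw [Nat.mul_comm, Nat.mul_add_mod, Nat.mod_eq_of_lt (by omega)]
    simp only [h3] at h2
    rw [if_neg (by omega)] at h2
    unfold Pool.Agent.Helper1.TP.ext
    rw [dif_pos h1]
    rcases h4 : ls ⟨v * (t1 + 1) + i, h1⟩ with l | m
    · exact ⟨l, rfl⟩
    · rw [h4] at h2
      exact absurd rfl h2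
  · intro v hv
    have h1 := slot_lt hv (le_refl t1)
    have h2 := h ⟨v * (t1 + 1) + t1, h1⟩
    unfold sch at h2
    have h3 : (v * (t1 + 1) + t1) % (t1 + 1) = t1 := by
      rw [Nat.mul_comm, Nat.mul_add_mod, Nat.mod_eq_of_lt (by omega)]
    simp only [h3] at h2
    rw [if_pos trivial] at h2
    unfold Pool.Agent.Helper1.TP.ext
    rw [dif_pos h1]
    rcases h4 : ls ⟨v * (t1 + 1) + t1, h1⟩ with l | m
    · left
      rw [h4] at h2
      by_contra h5
      apply h2
      show (if l = Z.e then lz else 0) = 0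
      rw [if_neg]
      intro h6
      rw [h6] at h5
      exact h5 rfl
    · exact Or.inr ⟨m, rfl⟩

/-- inside round `v` -/
theorem pq_word (Z : Letters (Fin n) LZ) (y : World q n) {t1 N : ℕ}
    {ls : Fin (MM t1 N) → LZ ⊕ Lt q} (h : Sup Z t1 N ls) {v : ℕ} (hv : v < N) : ∀ {i : ℕ},
    i ≤ t1 → pq Z y ls (v * (t1 + 1) + i) =
      zprod Z (fun i => ext Z ls (v * (t1 + 1) + i)) i * pq Z y ls (v * (t1 + 1))
  | 0, _ => by
    show _ = 1 * _
    rw [one_mul]
    rfl
  | i + 1, hi => by
    show (comb Z y).act (ext Z ls (v * (t1 + 1) + i)) * pq Z y ls (v * (t1 + 1) + i) =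
      zact Z (ext Z ls (v * (t1 + 1) + i)) * zprod Z _ i * _
    rw [pq_word Z y h hv (by omega : i ≤ t1), mul_assoc]
    congr 1
    obtain ⟨l, hl⟩ := h.1 v i hv (by omega)
    rw [hl]
    rfl

/-- the half steps of the programs are the prefixes of the letter sequence -/
theorem TT_pq (Z : Letters (Fin n) LZ) (y : World q n) {t1 N : ℕ}
    {ls : Fin (MM t1 N) → LZ ⊕ Lt q} (h : Sup Z t1 N ls) : ∀ {v : ℕ}, v ≤ N →
    Pool.Agent.Helper4.FS.TT (prog (aof Z t1 ls) (gof Z t1 ls)) y 0 (2 * v) =
      pq Z y ls (v * (t1 + 1))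
  | 0, _ => by
    rw [Nat.zero_mul]
    rfl
  | v + 1, hv => by
    have ih := TT_pq Z y h (by omega : v ≤ N)
    show Pool.Agent.Helper4.FS.act y (prog (aof Z t1 ls) (gof Z t1 ls) (0 + (2 * v + 1))) *
      (Pool.Agent.Helper4.FS.act y (prog (aof Z t1 ls) (gof Z t1 ls) (0 + 2 * v)) *
        Pool.Agent.Helper4.FS.TT (prog (aof Z t1 ls) (gof Z t1 ls)) y 0 (2 * v)) = _
    rw [ih, Nat.zero_add, Nat.zero_add, prog_even]
    show _ * (aof Z t1 ls v * _) = _
    have h1 := pq_word Z y h (by omega : v < N) (le_refl t1)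
    have h2 : pq Z y ls ((v + 1) * (t1 + 1)) = (comb Z y).act (ext Z ls (v * (t1 + 1) + t1)) *
        pq Z y ls (v * (t1 + 1) + t1) := by
      have h3 : (v + 1) * (t1 + 1) = v * (t1 + 1) + t1 + 1 := by ring
      rw [h3]
      rfl
    rw [h2, h1]
    have h4 : Pool.Agent.Helper4.FS.act y (prog (aof Z t1 ls) (gof Z t1 ls) (2 * v + 1)) =
        (comb Z y).act (ext Z ls (v * (t1 + 1) + t1)) := by
      rcases h.2 v (by omega) with h5 | ⟨m, h5⟩
      · have h6 : gof Z t1 ls v = none := by
          unfold gof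
          rw [h5]
          rfl
        rw [prog_odd_none h6, h5]
        exact Z.act_e.symm
      · have h6 : gof Z t1 ls v = some m := by
          unfold gof
          rw [h5]
          rfl
        rw [prog_odd_some h6, h5]
        rfl
    rw [h4]
    rfl

theorem TT_pq' (Z : Letters (Fin n) LZ) (y : World q n) {t1 N : ℕ}
    {ls : Fin (MM t1 N) → LZ ⊕ Lt q} (h : Sup Z t1 N ls) {v : ℕ} (hv : v < N) :
    Pool.Agent.Helper4.FS.TT (prog (aof Z t1 ls) (gof Z t1 ls)) y 0 (2 * v + 1) =
      pq Z y ls (v * (t1 + 1) + t1) := by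
  show Pool.Agent.Helper4.FS.act y (prog (aof Z t1 ls) (gof Z t1 ls) (0 + 2 * v)) *
      Pool.Agent.Helper4.FS.TT (prog (aof Z t1 ls) (gof Z t1 ls)) y 0 (2 * v) = _
  rw [TT_pq Z y h hv.le, Nat.zero_add, prog_even, pq_word Z y h hv le_rfl]
  rfl

theorem hp_pq (Z : Letters (Fin n) LZ) (y : World q n) {t1 N : ℕ}
    {ls : Fin (MM t1 N) → LZ ⊕ Lt q} (h : Sup Z t1 N ls) {v : ℕ} (hv : v ≤ N) (p : Fin n) :
    hp y (aof Z t1 ls) (gof Z t1 ls) (2 * v) p = pq Z y ls (v * (t1 + 1)) p := by
  unfold hp Pool.Agent.Helper4.FS.pos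
  rw [TT_pq Z y h hv]

theorem hp_pq' (Z : Letters (Fin n) LZ) (y : World q n) {t1 N : ℕ}
    {ls : Fin (MM t1 N) → LZ ⊕ Lt q} (h : Sup Z t1 N ls) {v : ℕ} (hv : v < N) (p : Fin n) :
    hp y (aof Z t1 ls) (gof Z t1 ls) (2 * v + 1) p = pq Z y ls (v * (t1 + 1) + t1) p := by
  unfold hp Pool.Agent.Helper4.FS.pos
  rw [TT_pq' Z y h hv]

/-- the end point of the letter sequence -/
theorem pos_tup (Z : Letters (Fin n) LZ) (y : World q n) {t1 N : ℕ}
    {ls : Fin (MM t1 N) → LZ ⊕ Lt q} (h : Sup Z t1 N ls) (x : Fin s ↪ Fin n) (l : Fin s) :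
    pos (tup (comb Z y) s) (MM t1 N) ls x l =
      hp y (aof Z t1 ls) (gof Z t1 ls) (2 * N) (x l) := by
  rw [hp_pq Z y h le_rfl, pos_eq_wd, wd_tup, wd_pq, embPerm_apply]

end link

end Pool.Agent.Helper73.TP
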