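import Pool.Agent.Helper1.TP.TopGoals
import Pool.Agent.Helper86.FS.StartGoals2
import Pool.Agent.Helper3.FS.Glue
import Pool.Agent.Helper3.AK.Final
import Pool.Agent.Helper43.FS.GapMore
import Pool.Agent.Helper13.FS.StageD

/-!
# Project FS (MP_75608d_al), top levels: from one level to all levels

`top_part`: the bound for one top level (`S_TOPLEV`), START in sup form (`SUPSTARTStmt`) and the
uniform gap on tuples of length at most `n ^ (1/2)` for three random elements give `S_PART` for the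
levels between `n / (C1 log n)` and `n / C2`.
-/

set_option autoImplicit false
set_option linter.unusedSectionVars false

namespace Pool.Agent.Helper73.TP

open Filter Topology Finset Real
open Pool.Agent.Helper3.AK (Alt lazyLaw TupleGap GroupGap EUT main_uniform)
open Pool.Agent.Helper38.FS (rp)
open Pool.Agent.Helper86.FS (pT SUPSTARTStmt)
open Pool.Agent.Helper1.TP (S_TOPLEV)
open Pool.Agent.Helper3.FS (S_PART S_EXC part_of_exc)

/-- counting with one more coordinate -/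
theorem frac_snoc {A : Type} [Fintype A] [Nonempty A] (k : ℕ) (P : (Fin k → A) → Prop)
    (Q : (Fin (k + 1) → A) → Prop) {c : ℝ} (hc : 0 ≤ c)
    (hQ : ∀ z, P z → (Nat.card {y : A // ¬ Q (Fin.snoc z y)} : ℝ) ≤ c * Nat.card A) :
    (Nat.card {z : Fin k → A // P z} : ℝ) / Nat.card (Fin k → A) - c ≤
      (Nat.card {x : Fin (k + 1) → A // Q x} : ℝ) / Nat.card (Fin (k + 1) → A) := by
  classical
  obtain ⟨N, hN⟩ : ∃ N : ℝ, N = Nat.card A := ⟨_, rfl⟩
  have hN0 : 0 < N := by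
    rw [hN]
    exact_mod_cast Nat.card_pos
  have hk : ∀ k : ℕ, (Nat.card (Fin k → A) : ℝ) = N ^ k := by
    intro k
    rw [hN, Nat.card_eq_fintype_card, Nat.card_eq_fintype_card, Fintype.card_fun, Fintype.card_fin]
    push_cast
    rfl
  have hP : ∀ k (P : (Fin k → A) → Prop), (Nat.card {x : Fin k → A // P x} : ℝ) =
      ∑ x, if P x then (1 : ℝ) else 0 := by
    intro k P
    rw [Nat.card_eq_fintype_card, Fintype.card_subtype, sum_boole]
  have hcount : (Nat.card {z : Fin k → A // P z} : ℝ) * (N - c * N) ≤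
      Nat.card {x : Fin (k + 1) → A // Q x} := by
    rw [hP, hP, Pool.Agent.Helper13.FS.sum_snoc', sum_mul]
    apply sum_le_sum
    intro z _
    by_cases hz : P z
    · rw [if_pos hz, one_mul]
      have h1 := hQ z hz
      have h2 : (Nat.card {y : A // ¬ Q (Fin.snoc z y)} : ℝ) =
          ∑ y : A, if ¬ Q (Fin.snoc z y) then (1 : ℝ) else 0 := by
        rw [Nat.card_eq_fintype_card, Fintype.card_subtype, sum_boole]
      have h3 : ∑ y : A, (if Q (Fin.snoc z y) then (1 : ℝ) else 0) +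
          ∑ y : A, (if ¬ Q (Fin.snoc z y) then (1 : ℝ) else 0) = N := by
        rw [← sum_add_distrib, hN, Nat.card_eq_fintype_card]
        have : ∀ y : A, (if Q (Fin.snoc z y) then (1 : ℝ) else 0) +
            (if ¬ Q (Fin.snoc z y) then (1 : ℝ) else 0) = 1 := by
          intro y
          by_cases h : Q (Fin.snoc z y)
          · simp [h]
          · simp [h]
        rw [sum_congr rfl fun y _ => this y]
        simp
      rw [h2, ← hN] at h1
      linarith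
    · rw [if_neg hz, zero_mul]
      apply sum_nonneg
      intro y _
      split_ifs
      · exact zero_le_one
      · exact le_rfl
  have hPle : (Nat.card {z : Fin k → A // P z} : ℝ) ≤ N ^ k := by
    rw [← hk]
    exact Nat.cast_le.2 (Nat.card_le_card_of_injective _ Subtype.val_injective)
  rw [hk, hk, le_div_iff₀ (by positivity), pow_succ]
  have h1 : (Nat.card {z : Fin k → A // P z} : ℝ) / N ^ k * (N ^ k * N) =
      (Nat.card {z : Fin k → A // P z} : ℝ) * N := by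
    field_simp
  have h2 : c * (Nat.card {z : Fin k → A // P z} : ℝ) * N ≤ c * N ^ k * N :=
    mul_le_mul_of_nonneg_right (mul_le_mul_of_nonneg_left hPle hc) hN0.le
  calc ((Nat.card {z : Fin k → A // P z} : ℝ) / N ^ k - c) * (N ^ k * N) =
      (Nat.card {z : Fin k → A // P z} : ℝ) * N - c * N ^ k * N := by
        rw [sub_mul, h1]
        ring
    _ ≤ (Nat.card {z : Fin k → A // P z} : ℝ) * (N - c * N) := by
        linarith
    _ ≤ _ := hcount

theorem log_le_rpow_ev (C a : ℝ) (ha : 0 < a) : ∀ᶠ n : ℕ in atTop, C * Real.log n ≤ (n : ℝ) ^ a := by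
  have h := (isLittleO_log_rpow_atTop ha).def (c := 1 / (|C| + 1)) (by positivity)
  have h2 := tendsto_natCast_atTop_atTop (R := ℝ) |>.eventually h
  filter_upwards [h2, eventually_ge_atTop 1] with n hn hn1
  have hn1' : (1 : ℝ) ≤ n := by exact_mod_cast hn1
  have hl : 0 ≤ Real.log n := Real.log_nonneg hn1'
  have hr : 0 < (n : ℝ) ^ a := Real.rpow_pos_of_pos (by linarith) a
  rw [Real.norm_of_nonneg hl, Real.norm_of_nonneg hr.le, one_div, inv_mul_eq_div,
    le_div_iff₀ (by positivity)] at hn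
  have h3 := le_abs_self C
  nlinarith

/-- the error term -/
theorem err_tendsto : Tendsto (fun n : ℕ => (2 * Real.log n + 1) * (n : ℝ) ^ (-(1 / 2) : ℝ)) atTop
    (𝓝 0) := by
  have h1 : Tendsto (fun x : ℝ => (2 * Real.log x + 1) * x ^ (-(1 / 2) : ℝ)) atTop (𝓝 0) := by
    have h2 : Tendsto (fun x : ℝ => Real.log x / x ^ (1 / 2 : ℝ)) atTop (𝓝 0) :=
      (isLittleO_log_rpow_atTop (by norm_num : (0 : ℝ) < 1 / 2)).tendsto_div_nhds_zero
    have h3 : Tendsto (fun x : ℝ => x ^ (-(1 / 2) : ℝ)) atTop (𝓝 0) :=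
      tendsto_rpow_neg_atTop (by norm_num)
    have h4 := (h2.const_mul 2).add h3
    rw [mul_zero, add_zero] at h4
    refine h4.congr' ?_
    filter_upwards [eventually_gt_atTop 0] with x hx
    rw [Real.rpow_neg hx.le]
    have : 0 < x ^ (1 / 2 : ℝ) := Real.rpow_pos_of_pos hx _
    field_simp
  exact h1.comp tendsto_natCast_atTop_atTop

theorem delta_tendsto : Tendsto (fun n : ℕ => (n : ℝ) ^ (-1 : ℝ) * Real.log n) atTop (𝓝 0) := by
  have h2 : Tendsto (fun x : ℝ => Real.log x / x ^ (1 : ℝ)) atTop (𝓝 0) :=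
    (isLittleO_log_rpow_atTop (by norm_num : (0 : ℝ) < 1)).tendsto_div_nhds_zero
  have h1 : Tendsto (fun x : ℝ => x ^ (-1 : ℝ) * Real.log x) atTop (𝓝 0) := by
    refine h2.congr' ?_
    filter_upwards [eventually_gt_atTop 0] with x hx
    rw [Real.rpow_neg hx.le]
    field_simp
  exact h1.comp tendsto_natCast_atTop_atTop

theorem natlog_le (n : ℕ) (hn : 1 ≤ n) : ((Nat.log 2 n : ℕ) : ℝ) ≤ 2 * Real.log n := by
  have h1 : 2 ^ Nat.log 2 n ≤ n := Nat.pow_log_le_self 2 (by omega)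
  have h2 : ((2 : ℝ)) ^ Nat.log 2 n ≤ n := by exact_mod_cast h1
  have h3 : Real.log ((2 : ℝ) ^ Nat.log 2 n) ≤ Real.log n :=
    Real.log_le_log (by positivity) h2
  rw [Real.log_pow] at h3
  have h4 : (1 / 2 : ℝ) ≤ Real.log 2 := by
    linarith [Real.log_two_gt_d9]
  have h5 : (0 : ℝ) ≤ (Nat.log 2 n : ℕ) := Nat.cast_nonneg _
  nlinarith

/-- **the top part** -/
theorem top_part (h1 : S_TOPLEV) (h2 : SUPSTARTStmt) : ∀ C1 : ℝ, 0 < C1 → ∃ C2 : ℝ, 0 < C2 ∧
    S_PART (fun n => (n : ℝ) / (C1 * Real.log n)) (fun n => (n : ℝ) / C2) := by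
  classical
  intro C1 hC1
  obtain ⟨ε0, hε0, hE⟩ := main_uniform (1 / 2) (by norm_num)
  obtain ⟨ε, hε⟩ : ∃ ε, ε = min ε0 1 := ⟨_, rfl⟩
  have hE3 : EUT 3 (1 / 2) ε := by
    rw [hε]
    exact EUT.mono (min_le_left _ _) (hE 3 (by norm_num) (by norm_num))
  have hεpos : 0 < ε := by
    rw [hε]
    exact lt_min hε0 one_pos
  have hε1 : ε ≤ 1 := by
    rw [hε]
    exact min_le_right _ _
  obtain ⟨CS, C, N, hCS, hC, hsup⟩ := h2 3 ε (32 * C1) (by norm_num) hεpos hε1 (by positivity)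
  obtain ⟨ε', hε'⟩ : ∃ ε' : ℝ, ε' = ε * (((3 : ℕ) : ℝ) / (((3 : ℕ) : ℝ) + 1)) := ⟨_, rfl⟩
  have hε'pos : 0 < ε' := by
    rw [hε']
    positivity
  have hε'1 : ε' ≤ 1 := by
    rw [hε']
    have : (((3 : ℕ) : ℝ) / (((3 : ℕ) : ℝ) + 1)) ≤ 1 := by norm_num
    have h0 : (0 : ℝ) ≤ (((3 : ℕ) : ℝ) / (((3 : ℕ) : ℝ) + 1)) := by positivity
    nlinarith
  obtain ⟨q, C', ξ, n0, hC', hξ, hlev⟩ := h1 4 ε' C1 CS (by norm_num) hε'pos hε'1 hC1 hCS
  obtain ⟨C2, hC2⟩ : ∃ C2 : ℝ, C2 = max 200000 C := ⟨_, rfl⟩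
  have hC2a : 200000 ≤ C2 := by
    rw [hC2]
    exact le_max_left _ _
  have hC2b : C ≤ C2 := by
    rw [hC2]
    exact le_max_right _ _
  have hC2pos : 0 < C2 := by linarith
  refine ⟨C2, hC2pos, ?_⟩
  apply part_of_exc
  refine ⟨4, q, C', ξ, fun n => (n : ℝ) ^ (-1 : ℝ), by norm_num, hC', hξ, delta_tendsto, ?_⟩
  have hlow : Tendsto (fun n : ℕ => (Nat.card {x : Fin 3 → Alt n // ∀ r : ℕ,
      (r : ℝ) ≤ (n : ℝ) ^ (1 / 2 : ℝ) → GroupGap x r ε ∧ TupleGap x r ε} : ℝ) /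
        Nat.card (Fin 3 → Alt n) - (2 * Real.log n + 1) * (n : ℝ) ^ (-(1 / 2) : ℝ)) atTop (𝓝 1) := by
    have h3 := hE3.sub err_tendsto
    rwa [sub_zero] at h3
  refine tendsto_of_tendsto_of_tendsto_of_le_of_le' hlow tendsto_const_nhds ?_ ?_
  · filter_upwards [eventually_ge_atTop N, eventually_ge_atTop n0, eventually_ge_atTop 4,
      log_le_rpow_ev (4 * C1) (1 / 32) (by norm_num), log_le_rpow_ev 1 (1 / 2) (by norm_num),
      log_le_rpow_ev (4 * C1) (1 / 2) (by norm_num)]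
      with n hnN hnn0 hn4 hlog hlog1 hlog2
    have hn1 : (1 : ℝ) ≤ n := by
      have : 1 ≤ n := by omega
      exact_mod_cast this
    have hn4' : (4 : ℝ) ≤ n := by exact_mod_cast hn4
    have hnpos : (0 : ℝ) < n := by linarith
    have hlogpos : 0 < Real.log n := Real.log_pos (by linarith)
    have hAne : Nonempty (Alt n) := ⟨1⟩
    have h2n : (2 : ℝ) ≤ (n : ℝ) ^ (1 / 2 : ℝ) := by
      have h3 : (4 : ℝ) ^ (1 / 2 : ℝ) ≤ (n : ℝ) ^ (1 / 2 : ℝ) :=
        Real.rpow_le_rpow (by norm_num) hn4' (by norm_num)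
      have h4 : (4 : ℝ) ^ (1 / 2 : ℝ) = 2 := by
        rw [show (4 : ℝ) = 2 ^ (2 : ℝ) by norm_num, ← Real.rpow_mul (by norm_num)]
        norm_num
      rwa [h4] at h3
    apply frac_snoc 3 (A := Alt n) (fun x => ∀ r : ℕ,
      (r : ℝ) ≤ (n : ℝ) ^ (1 / 2 : ℝ) → GroupGap x r ε ∧ TupleGap x r ε)
    · positivity
    intro z hz
    -- the window
    have hwin : ∀ j : ℕ, (n : ℝ) / (C1 * Real.log n) ≤ (2 : ℝ) ^ j → (2 : ℝ) ^ j ≤ (n : ℝ) / C2 →
        4 * 2 ^ (j - 2) = 2 ^ j ∧ (n : ℝ) ^ (31 / 32 : ℝ) ≤ ((2 ^ (j - 2) : ℕ) : ℝ) ∧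
          ((2 ^ (j - 2) : ℕ) : ℝ) ≤ n / C ∧ (n : ℝ) ≤ C1 * Real.log n * ((4 * 2 ^ (j - 2) : ℕ) : ℝ) ∧
          200000 * (4 * 2 ^ (j - 2)) ≤ n := by
      intro j hj1 hj2
      have hj3 : (n : ℝ) ≤ (2 : ℝ) ^ j * (C1 * Real.log n) := by
        rwa [div_le_iff₀ (by positivity)] at hj1
      -- `4 n ^ (31/32) ≤ 2 ^ j`
      have hj4 : 4 * (n : ℝ) ^ (31 / 32 : ℝ) ≤ (2 : ℝ) ^ j := by
        have h5 : (n : ℝ) = (n : ℝ) ^ (31 / 32 : ℝ) * (n : ℝ) ^ (1 / 32 : ℝ) := by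
          rw [← Real.rpow_add hnpos]
          norm_num
        have h6 : (n : ℝ) ^ (31 / 32 : ℝ) * (4 * C1 * Real.log n) ≤ n := by
          conv_rhs => rw [h5]
          exact mul_le_mul_of_nonneg_left hlog (Real.rpow_nonneg hnpos.le _)
        have h7 : 4 * (n : ℝ) ^ (31 / 32 : ℝ) * (C1 * Real.log n) ≤ (2 : ℝ) ^ j * (C1 * Real.log n) := by
          calc 4 * (n : ℝ) ^ (31 / 32 : ℝ) * (C1 * Real.log n) =
              (n : ℝ) ^ (31 / 32 : ℝ) * (4 * C1 * Real.log n) := by ring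
            _ ≤ _ := h6.trans hj3
        exact le_of_mul_le_mul_right h7 (by positivity)
      have hge1 : (1 : ℝ) ≤ (n : ℝ) ^ (31 / 32 : ℝ) := Real.one_le_rpow hn1 (by norm_num)
      have hj5 : 2 ≤ j := by
        by_contra hcon
        push Not at hcon
        have h5 : (2 : ℝ) ^ j ≤ 2 ^ 1 := pow_le_pow_right₀ (by norm_num) (by omega)
        linarith
      have e1 : 4 * 2 ^ (j - 2) = 2 ^ j := by
        rw [show (4 : ℕ) = 2 ^ 2 by norm_num, ← pow_add]
        congr 1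
        omega
      have e2 : (4 : ℝ) * ((2 ^ (j - 2) : ℕ) : ℝ) = (2 : ℝ) ^ j := by exact_mod_cast e1
      have e3 : ((4 * 2 ^ (j - 2) : ℕ) : ℝ) = (2 : ℝ) ^ j := by exact_mod_cast e1
      refine ⟨e1, by linarith, ?_, ?_, ?_⟩
      · have h5 : (2 : ℝ) ^ j ≤ n / C := hj2.trans (div_le_div_of_nonneg_left hnpos.le hC hC2b)
        have h6 : (0 : ℝ) ≤ ((2 ^ (j - 2) : ℕ) : ℝ) := Nat.cast_nonneg _
        linarith
      · rw [e3]
        linarith
      · have h5 : (2 : ℝ) ^ j * C2 ≤ n := by rwa [le_div_iff₀ hC2pos] at hj2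
        have h6 : (200000 : ℝ) * (2 : ℝ) ^ j ≤ n := by
          have : (0 : ℝ) < (2 : ℝ) ^ j := by positivity
          nlinarith
        rw [e1]
        exact_mod_cast h6
    -- the bad elements
    obtain ⟨RB, hRB⟩ : ∃ RB : ℕ → Alt n → Prop, ∀ b y, RB b y ↔
        ∀ (a : Fin b ↪ Fin n) (t : ℕ), CS * ((b : ℝ) ^ 2 / n) * Real.log n ≤ t →
          pT (lazyLaw (Fin.snoc z y : Fin (3 + 1) → Alt n) (2 * t)) a a ≤
            Real.exp (-(32 * C1 * ((b : ℝ) ^ 2 / n) * Real.log n)) := ⟨_, fun _ _ => Iff.rfl⟩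
    obtain ⟨J, hJ⟩ : ∃ J : Finset ℕ, J = (range (Nat.log 2 n + 1)).filter fun j =>
      (n : ℝ) / (C1 * Real.log n) ≤ (2 : ℝ) ^ j ∧ (2 : ℝ) ^ j ≤ (n : ℝ) / C2 := ⟨_, rfl⟩
    have hsub : (univ.filter fun y : Alt n => ¬ ∀ j : ℕ, (n : ℝ) / (C1 * Real.log n) ≤ (2 : ℝ) ^ j →
        (2 : ℝ) ^ j ≤ (n : ℝ) / C2 → 2 ^ j ≤ n →
        (Nat.card {y' : Fin q → Alt n // (n : ℝ) ^ (-(ξ * 2 ^ j)) <
          rp (Fin.append (Fin.snoc z y : Fin (3 + 1) → Alt n) y')
            (2 * ⌈C' * 2 ^ j * Real.log n⌉₊) (2 ^ j)} : ℝ) ≤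
          (n : ℝ) ^ (-1 : ℝ) * (Fintype.card (Alt n) : ℝ) ^ q) ⊆
        J.biUnion fun j => univ.filter fun y : Alt n => ¬ RB (2 ^ (j - 2)) y := by
      intro y hy
      rw [mem_filter] at hy
      have hy2 := hy.2
      push Not at hy2
      obtain ⟨j, hj1, hj2, hj3, hj4⟩ := hy2
      rw [mem_biUnion]
      refine ⟨j, ?_, ?_⟩
      · rw [hJ, mem_filter, mem_range]
        refine ⟨?_, hj1, hj2⟩
        have : j ≤ Nat.log 2 n := Nat.le_log_of_pow_le (by norm_num) hj3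
        omega
      · rw [mem_filter]
        refine ⟨mem_univ _, fun hrb => ?_⟩
        obtain ⟨w1, w2, w3, w4, w5⟩ := hwin j hj1 hj2
        have hgap : TupleGap (Fin.snoc z y : Fin (3 + 1) → Alt n) 2 ε' := by
          rw [hε']
          exact Pool.Agent.Helper43.FS.tupleGap_snoc (by norm_num) z y (hz 2 (by exact_mod_cast h2n)).2
        have h5 := hlev n hnn0 (Fin.snoc z y : Fin (3 + 1) → Alt n) hgap (2 ^ (j - 2)) w4 w5
          ((hRB _ _).1 hrb)
        rw [w1] at h5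
        push_cast at h5
        exact absurd h5 (not_le.2 hj4)
    have hcardJ : ∀ j ∈ J, ((univ.filter fun y : Alt n => ¬ RB (2 ^ (j - 2)) y).card : ℝ) ≤
        (n : ℝ) ^ (-(1 / 2) : ℝ) * Nat.card (Alt n) := by
      intro j hj
      rw [hJ, mem_filter] at hj
      obtain ⟨w1, w2, w3, w4, w5⟩ := hwin j hj.2.1 hj.2.2
      have h5 := hsup n hnN z (fun r hr => (hz r hr).2) (2 ^ (j - 2)) w2 w3
      refine le_trans (le_of_eq ?_) h5
      rw [Nat.card_eq_fintype_card, Fintype.card_subtype]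
      congr 2
      ext y
      simp only [mem_filter, mem_univ, true_and]
      rw [hRB]
    calc (Nat.card {y : Alt n // ¬ ∀ j : ℕ, (n : ℝ) / (C1 * Real.log n) ≤ (2 : ℝ) ^ j →
        (2 : ℝ) ^ j ≤ (n : ℝ) / C2 → 2 ^ j ≤ n →
        (Nat.card {y' : Fin q → Alt n // (n : ℝ) ^ (-(ξ * 2 ^ j)) <
          rp (Fin.append (Fin.snoc z y : Fin (3 + 1) → Alt n) y')
            (2 * ⌈C' * 2 ^ j * Real.log n⌉₊) (2 ^ j)} : ℝ) ≤
          (n : ℝ) ^ (-1 : ℝ) * (Fintype.card (Alt n) : ℝ) ^ q} : ℝ) ≤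
        ((J.biUnion fun j => univ.filter fun y : Alt n => ¬ RB (2 ^ (j - 2)) y).card : ℝ) := by
          rw [Nat.card_eq_fintype_card, Fintype.card_subtype]
          exact Nat.cast_le.2 (card_le_card hsub)
      _ ≤ ∑ j ∈ J, ((univ.filter fun y : Alt n => ¬ RB (2 ^ (j - 2)) y).card : ℝ) := by
          exact_mod_cast card_biUnion_le
      _ ≤ ∑ _j ∈ J, (n : ℝ) ^ (-(1 / 2) : ℝ) * Nat.card (Alt n) := sum_le_sum hcardJ
      _ = (J.card : ℝ) * ((n : ℝ) ^ (-(1 / 2) : ℝ) * Nat.card (Alt n)) := by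
          rw [sum_const, nsmul_eq_mul]
      _ ≤ (2 * Real.log n + 1) * ((n : ℝ) ^ (-(1 / 2) : ℝ) * Nat.card (Alt n)) := by
          apply mul_le_mul_of_nonneg_right _ (by positivity)
          have h5 : J.card ≤ Nat.log 2 n + 1 := by
            rw [hJ]
            exact (card_filter_le _ _).trans (by rw [card_range])
          have h6 : (J.card : ℝ) ≤ (Nat.log 2 n : ℕ) + 1 := by exact_mod_cast h5
          linarith [natlog_le n (by omega)]
      _ = _ := by ring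
  · filter_upwards with n
    apply div_le_one_of_le₀ _ (Nat.cast_nonneg _)
    exact Nat.cast_le.2 (Nat.card_le_card_of_injective _ Subtype.val_injective)

end Pool.Agent.Helper73.TP
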